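import Pool.Agent.K9h13.FE.St
import Pool.Agent.Helper22K9.Trp.Gall

/-! # Moments over configurations in a dense set (adapted from the starting files `N769/RQ_E1`, `N738/RQ_E2`) -/

set_option autoImplicit false

namespace Pool.Agent.K9h13.FE

open Finset Filter Topology
open Pool.Agent.N646.RO (Rgh S_WB S_BB)
open Pool.Agent.H387R2

open Classical in
/-- exchange of the sums -/
theorem exchange {ι : Type} [Fintype ι] [DecidableEq ι] (V : Finset ℕ) (I : Finset ℕ)
    (R : ℕ → ℕ → Prop) (b : ℕ → ℝ) :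
    ∑ H ∈ Fintype.piFinset (fun _ : ι => V),
      ∑ n ∈ I.filter (fun n : ℕ => ∀ x, R n (H x)), b n =
    ∑ n ∈ I, ((V.filter (fun t => R n t)).card : ℝ) ^ (Fintype.card ι) * b n := by
  simp only [sum_filter]
  rw [sum_comm]
  refine sum_congr rfl fun n _ => ?_
  rw [← sum_filter, sum_const, nsmul_eq_mul]
  congr 1
  have h1 : (Fintype.piFinset (fun _ : ι => V)).filter (fun H => ∀ x, R n (H x)) =
      Fintype.piFinset (fun _ : ι => V.filter (fun t => R n t)) := by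
    ext H
    simp only [mem_filter, Fintype.mem_piFinset]
    constructor
    · rintro ⟨h, h'⟩ x
      exact ⟨h x, h' x⟩
    · intro h
      exact ⟨fun x => (h x).1, fun x => (h x).2⟩
  rw [h1, Fintype.card_piFinset, prod_const, card_univ]
  push_cast
  rfl

open Classical in
/-- the moments of the number of the rough `n + v`, `v ∈ V` -/
theorem wbV (hW : S_WB) (δ lam c₀ : ℝ) (r : ℕ) (hδ : 0 < δ) (hlam : 0 < lam) (hc₀ : 0 < c₀) :
    ∃ C : ℝ, 0 < C ∧ ∀ᶠ N : ℕ in atTop, ∀ D : ℕ, lam * Real.log N ≤ D → 2 * D ≤ N → ∀ V ⊆ Icc 1 D,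
      c₀ * D ≤ V.card →
      ∑ n ∈ Icc (N / 18) (2 * N), ((V.filter (fun t : ℕ => Rgh δ N (n + t))).card : ℝ) ^ r ≤
        C * N * (V.card / Real.log N) ^ r := by
  obtain ⟨C, hC, h⟩ := hW δ lam 1 r hδ hlam le_rfl
  refine ⟨C * (2 / c₀) ^ r, by positivity, ?_⟩
  filter_upwards [h, eventually_ge_atTop 3] with N hN hN3 D hD1 hD2 V hV hVc
  have hlog : 0 < Real.log N := Real.log_pos (by exact_mod_cast (by omega : 1 < N))
  have hD0 : 0 < (D : ℝ) := lt_of_lt_of_le (by positivity) hD1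
  have hD0' : 1 ≤ D := by exact_mod_cast hD0
  have h1 := hN (D + 1) (by push_cast; linarith) (by omega)
  have h2 : ∀ n ∈ Icc (N / 18) (2 * N), ((V.filter (fun t : ℕ => Rgh δ N (n + t))).card : ℝ) ^ r ≤
      (((range (D + 1)).filter (fun t : ℕ => Rgh δ N (n + (1 : ℕ) * t))).card : ℝ) ^ r := by
    intro n _
    apply pow_le_pow_left₀ (Nat.cast_nonneg _)
    rw [Nat.cast_le]
    apply card_le_card
    intro t ht
    rw [mem_filter] at ht ⊢
    have h3 := mem_Icc.1 (hV ht.1)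
    refine ⟨mem_range.2 (by omega), ?_⟩
    have e : ((n : ℤ) + ((1 : ℕ) : ℤ) * (t : ℤ)) = (n : ℤ) + t := by push_cast; ring
    rw [e]
    exact ht.2
  refine (sum_le_sum h2).trans (h1.trans ?_)
  have h4 : (((D + 1 : ℕ) : ℝ) / Real.log N) ^ r ≤ (2 / c₀) ^ r * (V.card / Real.log N) ^ r := by
    rw [← mul_pow]
    apply pow_le_pow_left₀ (by positivity)
    rw [← mul_div_assoc]
    apply div_le_div_of_nonneg_right _ hlog.le
    push_cast
    have h5 : (D : ℝ) + 1 ≤ 2 * D := by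
      have : (1 : ℝ) ≤ D := by exact_mod_cast hD0'
      linarith
    have h6 : (D : ℝ) ≤ V.card / c₀ := by
      rw [le_div_iff₀ hc₀]; linarith
    calc (D : ℝ) + 1 ≤ 2 * D := h5
      _ ≤ 2 * (V.card / c₀) := by linarith
      _ = 2 / c₀ * V.card := by ring
  calc C * N * (((D + 1 : ℕ) : ℝ) / Real.log N) ^ r ≤ C * N * ((2 / c₀) ^ r * (V.card / Real.log N) ^ r) :=
        mul_le_mul_of_nonneg_left h4 (by positivity)
    _ = _ := by ring

theorem e1 (hW : S_WB) (hB : S_BB) : S_E1 := by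
  classical
  intro T K s δ lam c₀ hδ hlam hc₀
  obtain ⟨CW, hCW, h1⟩ := wbV hW δ lam c₀ (2 * (T * K)) hδ hlam hc₀
  obtain ⟨CB, hCB, h2⟩ := hB δ s 4 hδ
  refine ⟨Real.sqrt (CW * CB), Real.sqrt_pos.2 (mul_pos hCW hCB), ?_⟩
  filter_upwards [h1, h2, eventually_ge_atTop 2] with N h1 h2 hN D hD1 hD2 V hV hVc
  have k1 := h1 D hD1 hD2 V hV hVc
  have hlog : 0 < Real.log N := Real.log_pos (by exact_mod_cast (by omega : 1 < N))
  have hex := exchange (ι := Fin T × Fin K) V (Icc (N / 18) (2 * N))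
    (fun n t => Rgh δ N (n + t))
    (fun n => (((range (⌊Real.log N⌋₊ + s + 1)).filter
      (fun j : ℕ => Rgh δ N (n - j))).card : ℝ) ^ 2)
  have hcard : Fintype.card (Fin T × Fin K) = T * K := by
    rw [Fintype.card_prod, Fintype.card_fin, Fintype.card_fin]
  rw [hcard] at hex
  obtain ⟨L, hL⟩ : ∃ L, L = ∑ n ∈ Icc (N / 18) (2 * N),
      ((V.filter (fun t : ℕ => Rgh δ N (n + t))).card : ℝ) ^ (T * K) *
      (((range (⌊Real.log N⌋₊ + s + 1)).filter
      (fun j : ℕ => Rgh δ N (n - j))).card : ℝ) ^ 2 := ⟨_, rfl⟩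
  have hL2 : L ≤ Real.sqrt (CW * CB) * N * (V.card / Real.log N) ^ (T * K) := by
    have h3 := sum_mul_sq_le_sq_mul_sq (Icc (N / 18) (2 * N))
      (fun n : ℕ => ((V.filter
        (fun t : ℕ => Rgh δ N (n + t))).card : ℝ) ^ (T * K))
      (fun n : ℕ => (((range (⌊Real.log N⌋₊ + s + 1)).filter
        (fun j : ℕ => Rgh δ N (n - j))).card : ℝ) ^ 2)
    simp only [← pow_mul] at h3
    rw [mul_comm (T * K) 2] at h3
    have h4 : (2 * 2 : ℕ) = 4 := rfl
    rw [h4] at h3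
    rw [← hL] at h3
    have hL0 : 0 ≤ L := by
      rw [hL]
      exact sum_nonneg fun n _ => mul_nonneg (pow_nonneg (Nat.cast_nonneg _) _)
        (pow_nonneg (Nat.cast_nonneg _) _)
    have h5 : L ^ 2 ≤ (CW * N * (V.card / Real.log N) ^ (2 * (T * K))) * (CB * N) :=
      h3.trans (mul_le_mul k1 h2 (sum_nonneg fun n _ => pow_nonneg (Nat.cast_nonneg _) _)
        (by positivity))
    have h6 : (Real.sqrt (CW * CB) * N * (V.card / Real.log N) ^ (T * K)) ^ 2 =
        (CW * N * (V.card / Real.log N) ^ (2 * (T * K))) * (CB * N) := by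
      rw [mul_pow, mul_pow, Real.sq_sqrt (mul_pos hCW hCB).le, ← pow_mul, mul_comm (T * K) 2]
      ring
    rw [← h6] at h5
    exact (pow_le_pow_iff_left₀ hL0 (by positivity) two_ne_zero).1 h5
  rw [hL, ← hex] at hL2
  convert hL2 using 4

end Pool.Agent.K9h13.FE
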