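import Mathlib

/-! # Tuples and sets -/

set_option autoImplicit false

namespace Pool.Agent.K9h13.FE

open Finset

/-- the number of the injective tuples with a given set of values -/
lemma card_inj_image {k : ℕ} (T : Finset ℕ) (hT : T.card = k) (V : Finset ℕ) (hTV : T ⊆ V) :
    (((Fintype.piFinset (fun _ : Fin k => V)).filter (fun F : Fin k → ℕ => Function.Injective F ∧
      univ.image F = T)).card) = k.factorial := by
  classical
  have h1 : ((Fintype.piFinset (fun _ : Fin k => V)).filter (fun F : Fin k → ℕ => Function.Injective F ∧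
      univ.image F = T)) = (univ : Finset (Fin k ↪ T)).map
        ⟨fun e i => (e i : ℕ), fun e e' h => by
          ext i
          exact congrFun h i⟩ := by
    ext F
    simp only [mem_filter, Fintype.mem_piFinset, mem_map, mem_univ, true_and, Function.Embedding.coeFn_mk]
    constructor
    · rintro ⟨_, hinj, himg⟩
      have hF : ∀ i, F i ∈ T := fun i => by rw [← himg]; exact mem_image_of_mem F (mem_univ i)
      exact ⟨⟨fun i => ⟨F i, hF i⟩, fun i j h => hinj (congrArg Subtype.val h)⟩, rfl⟩
    · rintro ⟨e, rfl⟩
      have hinj : Function.Injective (fun i => ((e i : T) : ℕ)) := fun i j h => e.injective (Subtype.ext h)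
      refine ⟨fun i => hTV (e i).2, hinj, ?_⟩
      apply eq_of_subset_of_card_le
      · intro x hx
        obtain ⟨i, _, rfl⟩ := mem_image.1 hx
        exact (e i).2
      · rw [card_image_of_injective _ hinj, card_univ, Fintype.card_fin, hT]
  rw [h1, card_map, card_univ, Fintype.card_embedding_eq, Fintype.card_coe, hT, Fintype.card_fin,
    Nat.descFactorial_self]

/-- sums over injective tuples -/
lemma sum_inj (V : Finset ℕ) (k : ℕ) (f : Finset ℕ → ℝ) :
    ∑ F ∈ (Fintype.piFinset (fun _ : Fin k => V)).filter (fun F : Fin k → ℕ => Function.Injective F),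
      f (univ.image F) = k.factorial * ∑ T ∈ V.powersetCard k, f T := by
  classical
  have hmap : ∀ F ∈ (Fintype.piFinset (fun _ : Fin k => V)).filter (fun F : Fin k → ℕ => Function.Injective F),
      univ.image F ∈ V.powersetCard k := by
    intro F hF
    rw [mem_filter, Fintype.mem_piFinset] at hF
    rw [mem_powersetCard]
    refine ⟨?_, ?_⟩
    · intro x hx
      obtain ⟨i, _, rfl⟩ := mem_image.1 hx
      exact hF.1 i
    · rw [card_image_of_injective _ hF.2, card_univ, Fintype.card_fin]
  rw [← sum_fiberwise_of_maps_to hmap, mul_sum]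
  refine sum_congr rfl fun T hT => ?_
  rw [mem_powersetCard] at hT
  rw [sum_congr rfl (g := fun _ => f T) (fun F hF => by rw [(mem_filter.1 hF).2]), sum_const, nsmul_eq_mul]
  congr 1
  rw [filter_filter]
  exact_mod_cast card_inj_image T hT.2 V hT.1

end Pool.Agent.K9h13.FE
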