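import Pool.Agent.K9h13.FE.E1
import Pool.Agent.K9h13.FE.Sums

/-! # The bad tuples contribute little (adapted from the starting file `N738/RQ_E2` by helper738) -/

set_option autoImplicit false

namespace Pool.Agent.K9h13.FE

open Finset Filter Topology
open Pool.Agent.N646.RO (Rgh S_WB S_BB)
open Pool.Agent.H387R2

/-- the sum of the singular series over the injective tuples of a dense subset of an interval -/
theorem ctsum (k : ℕ) (c₀ : ℝ) (hc₀ : 0 < c₀) : ∃ C : ℝ, 0 < C ∧ ∃ D₀ : ℕ, ∀ D : ℕ, D₀ ≤ D → ∀ V ⊆ Icc 1 D,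
    c₀ * D ≤ V.card →
    ∑ F ∈ (Fintype.piFinset (fun _ : Fin (k + 1) => V)).filter (fun F => Function.Injective F),
      Uni.CT (univ.image F) ≤ C * (V.card : ℝ) ^ (k + 1) := by
  obtain ⟨D₀, h⟩ := Pool.Agent.Helper22K9.Trp.gall k 1 one_pos
  refine ⟨2 * (1 / c₀) ^ (k + 1), by positivity, D₀, fun D hD V hV hVc => ?_⟩
  rw [sum_inj V (k + 1) Uni.CT]
  have h1 : ∑ T ∈ V.powersetCard (k + 1), Uni.CT T ≤ ∑ T ∈ (Icc 1 D).powersetCard (k + 1), Uni.CT T :=
    sum_le_sum_of_subset_of_nonneg (powersetCard_mono hV) fun T _ _ => Uni.CT_nonneg T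
  have h2 := h D hD
  have h3 : (D : ℝ) ^ (k + 1) ≤ (1 / c₀) ^ (k + 1) * (V.card : ℝ) ^ (k + 1) := by
    rw [← mul_pow]
    apply pow_le_pow_left₀ (Nat.cast_nonneg _)
    rw [one_div, inv_mul_eq_div, le_div_iff₀ hc₀]
    linarith
  calc ((k + 1).factorial : ℝ) * ∑ T ∈ V.powersetCard (k + 1), Uni.CT T
      ≤ ((k + 1).factorial : ℝ) * ∑ T ∈ (Icc 1 D).powersetCard (k + 1), Uni.CT T :=
        mul_le_mul_of_nonneg_left h1 (by positivity)
    _ ≤ (1 + 1) * (D : ℝ) ^ (k + 1) := h2
    _ ≤ (1 + 1) * ((1 / c₀) ^ (k + 1) * (V.card : ℝ) ^ (k + 1)) :=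
        mul_le_mul_of_nonneg_left h3 (by norm_num)
    _ = _ := by ring

/-- number of extensions -/
theorem ext_count {I : Type} [Fintype I] [DecidableEq I] {k : ℕ} (π : Fin (k + 1) → I)
    (hπ : Function.Injective π) (A : Finset ℕ) (F : Fin (k + 1) → ℕ) :
    ((Fintype.piFinset (fun _ : I => A)).filter (fun H => (fun i => H (π i)) = F)).card ≤
      A.card ^ (Fintype.card I - (k + 1)) := by
  classical
  set J : Finset I := univ \ univ.image π with hJ
  have hJc : J.card = Fintype.card I - (k + 1) := by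
    rw [hJ, card_sdiff_of_subset (subset_univ _), card_image_of_injective _ hπ, card_univ,
      card_univ, Fintype.card_fin]
  have hcard : (Fintype.piFinset (fun _ : J => A)).card = A.card ^ Fintype.card J := by
    rw [Fintype.card_piFinset, prod_const, card_univ]
  rw [← hJc, ← Fintype.card_coe J, ← hcard]
  refine card_le_card_of_injOn (fun H => fun x : J => H x.1) ?_ ?_
  · intro H hH
    rw [mem_coe, mem_filter, Fintype.mem_piFinset] at hH
    rw [mem_coe, Fintype.mem_piFinset]
    exact fun x => hH.1 x.1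
  · intro H hH H' hH' h
    rw [mem_coe, mem_filter, Fintype.mem_piFinset] at hH hH'
    funext x
    by_cases hx : x ∈ univ.image π
    · obtain ⟨i, _, rfl⟩ := mem_image.mp hx
      exact (congrFun hH.2 i).trans (congrFun hH'.2 i).symm
    · exact congrFun h ⟨x, mem_sdiff.mpr ⟨mem_univ _, hx⟩⟩

open Classical in
theorem e2 (hW : S_WB) (k : ℕ) : S_E2 k := by
  intro T K δ lam c₀ hδ hlam hc₀
  set m := T * K - (k + 1) with hm
  obtain ⟨C', hC', hev⟩ := wbV hW δ lam c₀ (k + 1 + 2 * m) hδ hlam hc₀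
  obtain ⟨CS, hCS, D₀, hCT⟩ := ctsum k c₀ hc₀
  obtain ⟨C, hCd⟩ : ∃ C, C = CS * C' := ⟨_, rfl⟩
  have hC : 0 < C := by rw [hCd]; positivity
  refine ⟨Real.sqrt C, Real.sqrt_pos.mpr hC, ?_⟩
  have hlogt : Tendsto (fun N : ℕ => lam * Real.log (N : ℝ)) atTop atTop :=
    (Real.tendsto_log_atTop.comp tendsto_natCast_atTop_atTop).const_mul_atTop hlam
  filter_upwards [hev, eventually_ge_atTop 18, hlogt.eventually_ge_atTop (D₀ : ℝ)] with N hN hN18 hND₀
  intro D hD1 hD2 V hV hVc κ hκ hκ1 π hπ
  have hDD₀ : D₀ ≤ D := by exact_mod_cast hND₀.trans hD1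
  have hTK : k + 1 ≤ T * K := by
    have := Fintype.card_le_of_injective π hπ
    simpa using this
  have hmk : k + 1 + m = T * K := by omega
  have hlog : 0 < Real.log N := Real.log_pos (by exact_mod_cast (by omega : 1 < N))
  set A : ℕ → Finset ℕ := fun n => V.filter (fun t : ℕ => Rgh δ N (n + t)) with hA
  set Q : ℕ → Finset (Fin (k + 1) → ℕ) := fun n =>
    (Fintype.piFinset (fun _ : Fin (k + 1) => V)).filter (fun F => (Function.Injective F ∧ ¬ Gd κ N F) ∧
      (∀ i, (n + F i).Prime) ∧ ∀ i, F i ∈ A n) with hQ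
  set NN := Icc (N / 18) (2 * N) with hNN
  -- exchange of the sums
  have h1 : ∑ H ∈ (Fintype.piFinset (fun _ : Fin T × Fin K => V)).filter
        (fun H => Function.Injective H ∧ ¬ Gd κ N (fun i => H (π i))),
      ((NN.filter (fun n : ℕ => (∀ x, Rgh δ N (n + H x)) ∧
        ∀ i, (n + H (π i)).Prime)).card : ℝ) =
      ∑ n ∈ NN, ((((Fintype.piFinset (fun _ : Fin T × Fin K => V)).filter
        (fun H => Function.Injective H ∧ ¬ Gd κ N (fun i => H (π i)))).filter (fun H => (∀ x, Rgh δ N (n + H x)) ∧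
        ∀ i, (n + H (π i)).Prime)).card : ℝ) := by
    simp only [card_filter, Nat.cast_sum]
    rw [sum_comm]
  rw [h1]
  -- the bound for one n
  have h2 : ∀ n ∈ NN, ((((Fintype.piFinset (fun _ : Fin T × Fin K => V)).filter
        (fun H => Function.Injective H ∧ ¬ Gd κ N (fun i => H (π i)))).filter (fun H => (∀ x, Rgh δ N (n + H x)) ∧
        ∀ i, (n + H (π i)).Prime)).card : ℝ) ≤
      Real.sqrt ((Q n).card : ℝ) * Real.sqrt (((Q n).card : ℝ) * ((A n).card : ℝ) ^ (2 * m)) := by
    intro n _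
    have h3 : (((Fintype.piFinset (fun _ : Fin T × Fin K => V)).filter
        (fun H => Function.Injective H ∧ ¬ Gd κ N (fun i => H (π i)))).filter (fun H => (∀ x, Rgh δ N (n + H x)) ∧
        ∀ i, (n + H (π i)).Prime)).card ≤ (A n).card ^ m * (Q n).card := by
      refine (card_le_mul_card_image (f := fun H => fun i => H (π i)) _ ((A n).card ^ m)
        ?_).trans (Nat.mul_le_mul_left _ (card_le_card ?_))
      · intro F _
        have h4 := ext_count π hπ (A n) F
        have h5 : Fintype.card (Fin T × Fin K) - (k + 1) = m := by simp [hm]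
        rw [h5] at h4
        refine le_trans (card_le_card ?_) h4
        intro H hH
        simp only [mem_filter, Fintype.mem_piFinset] at hH ⊢
        refine ⟨fun x => ?_, hH.2⟩
        rw [hA]
        exact mem_filter.mpr ⟨hH.1.1.1 x, hH.1.2.1 x⟩
      · intro F hF
        obtain ⟨H, hH, rfl⟩ := mem_image.mp hF
        simp only [mem_filter, Fintype.mem_piFinset] at hH
        rw [hQ]
        refine mem_filter.mpr ⟨Fintype.mem_piFinset.mpr fun i => hH.1.1 _,
          ⟨hH.1.2.1.comp hπ, hH.1.2.2⟩, hH.2.2, fun i => ?_⟩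
        rw [hA]
        exact mem_filter.mpr ⟨hH.1.1 _, hH.2.1 _⟩
    have h6 : Real.sqrt ((Q n).card : ℝ) * Real.sqrt (((Q n).card : ℝ) * ((A n).card : ℝ) ^ (2 * m))
        = ((A n).card : ℝ) ^ m * (Q n).card := by
      rw [← Real.sqrt_mul (by positivity)]
      have : ((Q n).card : ℝ) * (((Q n).card : ℝ) * ((A n).card : ℝ) ^ (2 * m)) =
          (((A n).card : ℝ) ^ m * (Q n).card) ^ 2 := by
        rw [mul_comm 2 m, pow_mul]; ring
      rw [this, Real.sqrt_sq (by positivity)]
    rw [h6]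
    exact_mod_cast h3
  refine (sum_le_sum h2).trans ?_
  refine (Real.sum_sqrt_mul_sqrt_le _ (fun n => by positivity) (fun n => by positivity)).trans ?_
  -- the first factor
  have h7 : ∑ n ∈ NN, ((Q n).card : ℝ) ≤
      CS * (V.card : ℝ) ^ (k + 1) * (κ * (N / (Real.log N) ^ (k + 1))) := by
    have h8 : ∑ n ∈ NN, ((Q n).card : ℝ) ≤
        ∑ F ∈ (Fintype.piFinset (fun _ : Fin (k + 1) => V)).filter
          (fun F => Function.Injective F ∧ ¬ Gd κ N F), ((pF N F : ℕ) : ℝ) := by
      have h9 : ∀ n ∈ NN, ((Q n).card : ℝ) ≤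
          ((((Fintype.piFinset (fun _ : Fin (k + 1) => V)).filter
          (fun F => Function.Injective F ∧ ¬ Gd κ N F)).filter (fun F => ∀ i, (n + F i).Prime)).card : ℝ) := by
        intro n _
        have : (Q n).card ≤ (((Fintype.piFinset (fun _ : Fin (k + 1) => V)).filter
          (fun F => Function.Injective F ∧ ¬ Gd κ N F)).filter (fun F => ∀ i, (n + F i).Prime)).card := by
          refine card_le_card fun F hF => ?_
          rw [hQ] at hF
          have hF' := mem_filter.mp hF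
          exact mem_filter.mpr ⟨mem_filter.mpr ⟨hF'.1, hF'.2.1⟩, hF'.2.2.1⟩
        exact_mod_cast this
      refine (sum_le_sum h9).trans ?_
      simp only [card_filter, Nat.cast_sum]
      rw [sum_comm]
      refine sum_le_sum fun F _ => ?_
      rw [← Nat.cast_sum, ← card_filter]
      have : (NN.filter (fun n : ℕ => ∀ i, (n + F i).Prime)).card ≤ pF N F := by
        unfold pF
        refine card_le_card fun n hn => ?_
        rw [mem_filter, hNN, mem_Icc] at hn
        have h18 : 1 ≤ N / 18 := (Nat.one_le_div_iff (by norm_num)).mpr hN18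
        exact mem_filter.mpr ⟨mem_Icc.mpr ⟨h18.trans hn.1.1, hn.1.2⟩, hn.2⟩
      exact_mod_cast this
    refine h8.trans ?_
    have h10 : ∀ F ∈ (Fintype.piFinset (fun _ : Fin (k + 1) => V)).filter
          (fun F => Function.Injective F ∧ ¬ Gd κ N F), ((pF N F : ℕ) : ℝ) ≤
          Uni.CT (univ.image F) * (κ * (N / (Real.log N) ^ (k + 1))) := by
      intro F hF
      have := (mem_filter.mp hF).2.2
      unfold Gd at this
      have h11 := (not_le.mp this).le
      calc ((pF N F : ℕ) : ℝ) ≤ κ * Uni.CT (univ.image F) * (N / (Real.log N) ^ (k + 1)) := h11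
        _ = _ := by ring
    refine (sum_le_sum h10).trans ?_
    rw [← sum_mul]
    refine mul_le_mul_of_nonneg_right ?_ (by positivity)
    refine le_trans ?_ (hCT D hDD₀ V hV hVc)
    apply sum_le_sum_of_subset_of_nonneg
    · intro F hF
      rw [mem_filter] at hF ⊢
      exact ⟨hF.1, hF.2.1⟩
    · intro F _ _
      exact Uni.CT_nonneg _
  -- the second factor
  have h12 : ∑ n ∈ NN, ((Q n).card : ℝ) * ((A n).card : ℝ) ^ (2 * m) ≤
      C' * N * (V.card / Real.log N) ^ (k + 1 + 2 * m) := by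
    refine (sum_le_sum fun n _ => ?_).trans (hN D hD1 hD2 V hV hVc)
    have h13 : (Q n).card ≤ (A n).card ^ (k + 1) := by
      have h14 : (Q n).card ≤ (Fintype.piFinset (fun _ : Fin (k + 1) => A n)).card := by
        refine card_le_card fun F hF => ?_
        rw [hQ] at hF
        have hF' := mem_filter.mp hF
        exact Fintype.mem_piFinset.mpr hF'.2.2.2
      rw [Fintype.card_piFinset_const] at h14
      simpa using h14
    have h15 : ((Q n).card : ℝ) ≤ ((A n).card : ℝ) ^ (k + 1) := by exact_mod_cast h13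
    rw [pow_add _ (k + 1)]
    exact mul_le_mul_of_nonneg_right h15 (by positivity)
  refine (mul_le_mul (Real.sqrt_le_sqrt h7) (Real.sqrt_le_sqrt h12) (Real.sqrt_nonneg _)
    (Real.sqrt_nonneg _)).trans (le_of_eq ?_)
  rw [← Real.sqrt_mul (by positivity)]
  have h16 : CS * (V.card : ℝ) ^ (k + 1) * (κ * (N / (Real.log N) ^ (k + 1))) *
      (C' * N * (V.card / Real.log N) ^ (k + 1 + 2 * m)) =
      (C * κ) * (N * (V.card / Real.log N) ^ (T * K)) ^ 2 := by
    rw [← hmk, mul_pow, ← pow_mul, hCd]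
    have e : (k + 1 + m) * 2 = (k + 1) + (k + 1 + 2 * m) := by ring
    rw [e, pow_add _ (k + 1) (k + 1 + 2 * m), div_pow _ _ (k + 1)]
    field_simp
  rw [h16, Real.sqrt_mul (by positivity), Real.sqrt_sq (by positivity), Real.sqrt_mul hC.le]
  ring

end Pool.Agent.K9h13.FE
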