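import Pool.Agent.K9h13.FE.Sh
import Pool.Agent.Helper22K9.Trp.Pair

/-!
# Pairs `(d', d)` for which the number of prime triples has the right order

The reduction from sets to pairs of differences is the one of the starting files `Helper22K9/Trp/Tri`, `Pair`.
-/

set_option autoImplicit false

namespace Pool.Agent.K9h13.FE

open Finset Filter Topology Pool.Agent.H387R2
open Pool.Agent.N646.RO (S_BRM)
open Pool.Agent.Helper22K9.Trp (gall pi3 S3 tri st sum_three S3_eq S3_nonneg prs df sum_fib S3_even)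

/-- the normalised count -/
noncomputable def R3 (x : ℝ) (d' d : ℕ) : ℝ := (pi3 x d' d : ℝ) * (Real.log x) ^ 3 / (S3 d' d * x)

lemma cR_le_pi3 {a b c : ℕ} (hab : a < b) (hbc : b < c) (N : ℕ) (x : ℝ) (hx : ((2 * N + c : ℕ) : ℝ) ≤ x) :
    cR N {a, b, c} ≤ pi3 x (c - b) (c - a) := by
  unfold cR pi3
  refine card_le_card_of_injOn (fun n => n + c) ?_ ?_
  · intro n hn
    rw [mem_coe, mem_filter, mem_Icc] at hn
    have h1 := hn.2
    have ha := h1 a (by simp)
    have hb := h1 b (by simp)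
    have hc := h1 c (by simp)
    rw [mem_coe, mem_filter]
    refine ⟨?_, ?_, ?_, ?_⟩
    · show n + c ∈ range (⌊x⌋₊ + 1)
      have h2 : 2 * N + c ≤ ⌊x⌋₊ := Nat.le_floor hx
      rw [mem_range]; omega
    · exact hc
    · have : n + c - (c - a) = n + a := by omega
      show (n + c - (c - a)).Prime
      rw [this]; exact ha
    · have : n + c - (c - b) = n + b := by omega
      show (n + c - (c - b)).Prime
      rw [this]; exact hb
  · intro n _ m _ h
    have h' : n + c = m + c := h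
    omega

open Classical in
/-- **The proportion of the pairs of the right order.** -/
theorem tr3 (hBRM : S_BRM) (hH : S_HITM 2) (ε : ℝ) (hε : 0 < ε) (lam : ℝ) (hlam : 0 < lam) :
    ∃ κ : ℝ, 0 < κ ∧ ∃ X : ℝ, ∀ x : ℝ, X ≤ x → ∀ D : ℕ, lam * Real.log x ≤ D → 8 * (D : ℝ) ≤ x →
      (25 / 324 - ε) * ∑ v ∈ prs D, ((D : ℝ) - v.2) * S3 v.1 v.2 ≤
        ∑ v ∈ (prs D).filter (fun v => κ ≤ R3 x v.1 v.2), ((D : ℝ) - v.2) * S3 v.1 v.2 := by
  obtain ⟨c, hc⟩ : ∃ c : ℝ, c = 25 / 324 := ⟨_, rfl⟩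
  rw [← hc]
  have hc2 : (5 / 18 : ℝ) ^ 2 = c := by rw [hc]; norm_num
  obtain ⟨ε₁, hε₁⟩ : ∃ ε₁ : ℝ, ε₁ = min (ε / 3) (c / 2) := ⟨_, rfl⟩
  have hc0 : 0 < c := by rw [hc]; norm_num
  have hc1 : c ≤ 1 := by rw [hc]; norm_num
  have hε₁0 : 0 < ε₁ := by rw [hε₁]; positivity
  have hε₁1 : ε₁ ≤ ε / 3 := by rw [hε₁]; exact min_le_left _ _
  have hε₁2 : ε₁ ≤ c / 2 := by rw [hε₁]; exact min_le_right _ _
  obtain ⟨κ, hκ, h⟩ := massR hBRM 2 hH ε₁ hε₁0 lam 1 hlam one_pos
  rw [hc2] at h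
  obtain ⟨N₁, h'⟩ := gall 2 ε₁ hε₁0
  refine ⟨κ / 4, by positivity, ?_⟩
  have tN : Tendsto (fun x : ℝ => ⌊x / 3⌋₊) atTop atTop :=
    tendsto_nat_floor_atTop.comp (tendsto_id.atTop_div_const (by norm_num))
  have tlog : Tendsto (fun x : ℝ => lam * Real.log x) atTop atTop :=
    Real.tendsto_log_atTop.const_mul_atTop hlam
  have hev : ∀ᶠ x : ℝ in atTop, ∀ D : ℕ, lam * Real.log x ≤ D → 8 * (D : ℝ) ≤ x →
      (c - ε) * ∑ v ∈ prs D, ((D : ℝ) - v.2) * S3 v.1 v.2 ≤
        ∑ v ∈ (prs D).filter (fun v => κ / 4 ≤ R3 x v.1 v.2), ((D : ℝ) - v.2) * S3 v.1 v.2 := by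
    filter_upwards [tN.eventually h, scale (2 + 1), eventually_ge_atTop (100 : ℝ),
      tlog.eventually_ge_atTop (N₁ : ℝ)] with x hx hsc hx100 hxN₁ D hD1 hD2
    obtain ⟨N, hN⟩ : ∃ N, N = ⌊x / 3⌋₊ := ⟨_, rfl⟩
    rw [← hN] at hx hsc
    have hb1 : x / 3 < N + 1 := by rw [hN]; exact Nat.lt_floor_add_one _
    have hb2 : (N : ℝ) ≤ x / 3 := by rw [hN]; exact Nat.floor_le (by positivity)
    have hN1 : (2 : ℝ) ≤ N := by linarith
    have hlogN : Real.log N ≤ Real.log x := Real.log_le_log (by linarith) (by linarith)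
    have hlogx : 0 < Real.log x := Real.log_pos (by linarith)
    have hDN : 2 * D ≤ N := by
      have : (2 * (D : ℝ)) ≤ N := by linarith
      exact_mod_cast this
    have hDl : lam * Real.log N ≤ D := (mul_le_mul_of_nonneg_left hlogN hlam.le).trans hD1
    have hDN₁ : N₁ ≤ D := by exact_mod_cast hxN₁.trans hD1
    have key := hx D hDl hDN (Icc 1 D) subset_rfl (by simp)
    have hcard : (Icc 1 D).card = D := by simp
    rw [hcard] at key
    have e6 : ((2 + 1).factorial : ℝ) = 6 := by norm_num [Nat.factorial]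
    rw [e6] at key
    -- the good triples
    have k2 : ∑ T ∈ gdR 2 κ N (Icc 1 D), Uni.CT T ≤
        ∑ v ∈ (prs D).filter (fun v => κ / 4 ≤ R3 x v.1 v.2), ((D : ℝ) - v.2) * S3 v.1 v.2 := by
      unfold gdR
      rw [sum_filter, sum_three (Icc 1 D) (fun T =>
        if κ * Uni.CT T * (N / (Real.log N) ^ (2 + 1)) ≤ (cR N T : ℝ) then Uni.CT T else 0)]
      have e2 := sum_fib D (fun v => if κ / 4 ≤ R3 x v.1 v.2 then S3 v.1 v.2 else 0) (by
        intro u hu hne
        unfold tri at hu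
        rw [mem_filter] at hu
        obtain ⟨-, hab, hbc⟩ := hu
        have hne2 : S3 (df u).1 (df u).2 ≠ 0 := by
          intro h0
          apply hne
          simp only [h0, ite_self]
        exact S3_even hab hbc hne2)
      have e3 : ∑ v ∈ (prs D).filter (fun v => κ / 4 ≤ R3 x v.1 v.2), ((D : ℝ) - v.2) * S3 v.1 v.2 =
          ∑ v ∈ prs D, ((D : ℝ) - v.2) * (if κ / 4 ≤ R3 x v.1 v.2 then S3 v.1 v.2 else 0) := by
        rw [sum_filter]
        refine sum_congr rfl fun v _ => ?_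
        split_ifs
        · rfl
        · rw [mul_zero]
      rw [e3, ← e2]
      apply sum_le_sum
      intro u hu
      have hu' := hu
      unfold tri at hu
      rw [mem_filter, mem_product, mem_product] at hu
      obtain ⟨⟨-, -, hcD⟩, hab, hbc⟩ := hu
      have hst : st u = {u.1, u.2.1, u.2.2} := rfl
      have hdf1 : (df u).1 = u.2.2 - u.2.1 := rfl
      have hdf2 : (df u).2 = u.2.2 - u.1 := rfl
      rw [hst, ← S3_eq hab hbc, hdf1, hdf2]
      have hS0 := S3_nonneg hab hbc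
      rcases hS0.eq_or_lt with h0 | hpos
      · rw [← h0]
        simp
      split_ifs with g1 g2
      · exact le_rfl
      · exfalso
        apply g2
        unfold R3
        rw [le_div_iff₀ (by positivity)]
        have hcD2 : (u.2.2 : ℝ) ≤ D := by exact_mod_cast (mem_Icc.1 hcD).2
        have h4 : ((cR N {u.1, u.2.1, u.2.2} : ℕ) : ℝ) ≤ (pi3 x (u.2.2 - u.2.1) (u.2.2 - u.1) : ℝ) := by
          exact_mod_cast cR_le_pi3 hab hbc N x (by push_cast; linarith)
        have h5 : κ / 4 * S3 (u.2.2 - u.2.1) (u.2.2 - u.1) * (x / (Real.log x) ^ (2 + 1)) ≤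
            (pi3 x (u.2.2 - u.2.1) (u.2.2 - u.1) : ℝ) := by
          calc κ / 4 * S3 (u.2.2 - u.2.1) (u.2.2 - u.1) * (x / (Real.log x) ^ (2 + 1))
              ≤ κ / 4 * S3 (u.2.2 - u.2.1) (u.2.2 - u.1) * (4 * ((N : ℝ) / (Real.log N) ^ (2 + 1))) :=
                mul_le_mul_of_nonneg_left hsc (by positivity)
            _ = κ * S3 (u.2.2 - u.2.1) (u.2.2 - u.1) * ((N : ℝ) / (Real.log N) ^ (2 + 1)) := by ring
            _ ≤ _ := g1.trans h4
        have h6 := mul_le_mul_of_nonneg_right h5 (by positivity : 0 ≤ (Real.log x) ^ 3)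
        refine le_trans (le_of_eq ?_) h6
        field_simp
      · exact hpos.le
      · exact le_rfl
    have k3 : ∑ T ∈ (Icc 1 D).powersetCard 3, Uni.CT T = ∑ v ∈ prs D, ((D : ℝ) - v.2) * S3 v.1 v.2 := by
      rw [sum_three (Icc 1 D) (fun T => Uni.CT T)]
      rw [← sum_fib D (fun v => S3 v.1 v.2) (by
        intro u hu hne
        unfold tri at hu
        rw [mem_filter] at hu
        obtain ⟨-, hab, hbc⟩ := hu
        exact S3_even hab hbc hne)]
      refine sum_congr rfl fun u hu => ?_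
      unfold tri at hu
      rw [mem_filter] at hu
      obtain ⟨-, hab, hbc⟩ := hu
      exact (S3_eq hab hbc).symm
    have k4 := h' D hDN₁
    have e7 : (2 + 1 : ℕ) = 3 := rfl
    rw [e6, e7, k3] at k4
    rw [e7] at key
    obtain ⟨Q, hQ⟩ : ∃ Q : ℝ, Q = ∑ v ∈ prs D, ((D : ℝ) - v.2) * S3 v.1 v.2 := ⟨_, rfl⟩
    rw [← hQ] at k4 ⊢
    have hQ0 : 0 ≤ Q := by
      rw [hQ, ← k3]
      exact sum_nonneg fun T _ => Uni.CT_nonneg T
    have hD3 : (0 : ℝ) ≤ (D : ℝ) ^ 3 := by positivity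
    refine le_trans ?_ k2
    -- `Q ≤ (1 + ε₁) D ^ 3 / 6`
    have k5 : Q ≤ (1 + ε₁) * ((D : ℝ) ^ 3 / 6) := by linarith
    have k1 : (c - ε₁) * ((D : ℝ) ^ 3 / 6) ≤ ∑ T ∈ gdR 2 κ N (Icc 1 D), Uni.CT T := by linarith
    refine le_trans ?_ k1
    rcases le_or_gt (c - ε) 0 with hcc | hcc
    · have h1 : (c - ε) * Q ≤ 0 := mul_nonpos_of_nonpos_of_nonneg hcc hQ0
      have h2 : 0 ≤ (c - ε₁) * ((D : ℝ) ^ 3 / 6) := mul_nonneg (by linarith) (by positivity)
      linarith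
    · calc (c - ε) * Q ≤ (c - ε) * ((1 + ε₁) * ((D : ℝ) ^ 3 / 6)) := mul_le_mul_of_nonneg_left k5 hcc.le
        _ = ((c - ε) * (1 + ε₁)) * ((D : ℝ) ^ 3 / 6) := by ring
        _ ≤ _ := by
            apply mul_le_mul_of_nonneg_right _ (by positivity)
            nlinarith
  obtain ⟨X, hX⟩ := eventually_atTop.1 hev
  exact ⟨X, fun x hx => hX x hx⟩

end Pool.Agent.K9h13.FE
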