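import Pool.Agent.K9h13.FE.Hit
import Pool.Agent.K9h13.FE.E2
import Pool.Agent.K9h13.FE.Hitm
import Pool.Agent.K9h13.FE.Tr3
import Pool.Agent.N595.RQ_BRM
import Pool.Agent.N692.RQ_WB
import Pool.Agent.N415.RQ_BB
import Pool.Agent.N592.RQ_MB

/-! # Assembly -/

set_option autoImplicit false

namespace Pool.Agent.K9h13.FE

open Finset Filter

theorem sWB : Pool.Agent.N646.RO.S_WB := Pool.Agent.N692.RQWB.main Pool.Agent.N592.RQ.main

theorem sBB : Pool.Agent.N646.RO.S_BB := Pool.Agent.N415.RQBB.main Pool.Agent.N592.RQ.main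

theorem sHITM (k : ℕ) : S_HITM k := hitm Hit.main (e1 sWB sBB) k (e2 sWB k)

theorem sBRM : Pool.Agent.N646.RO.S_BRM := Pool.Agent.N595.RQ.main

end Pool.Agent.K9h13.FE
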