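import Pool.Agent.K9h13.FE.St
import Pool.Agent.N646.RO.Stm2
import Pool.Agent.W25.QL.Main
import Pool.Agent.W25.QL.Count

/-! # The number of the good tuples, from the hitting property for most configurations
(adapted from the starting file `W25/QL/Main`) -/

set_option autoImplicit false

namespace Pool.Agent.K9h13.FE

open Finset
open Pool.Agent.W70.QP (Cx mem_Cx card_pull)
open Pool.Agent.W25.QL (Fails)
open Pool.Agent.N646.RO (HitM S_BRM)

open Classical in
theorem genM (hB : S_BRM) (lam : ℝ) (hlam : 1 ≤ lam) (k : ℕ) (ε : ℝ) (hε : 0 < ε) (Kf : ℕ → ℕ) :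
    ∃ M n₀ : ℕ, ∃ δ' : ℝ, 0 < δ' ∧ ∀ (V : Finset ℕ) (G : Finset ℕ → Prop), n₀ ≤ V.card →
      (∀ F F' : Finset ℕ, F' ⊆ F → G F → G F') → HitM lam Kf M δ' V G →
      ((1 / lam) ^ k - ε) * (V.card : ℝ) ^ (k + 1) ≤
        (((Fintype.piFinset (fun _ : Fin (k + 1) => V)).filter (fun y => Function.Injective y ∧
          G (univ.image y))).card : ℝ) := by
  have hlam0 : 0 < lam := by linarith
  obtain ⟨δ, hδ⟩ : ∃ δ : ℝ, δ = (1 / lam) ^ k := ⟨_, rfl⟩
  rw [← hδ]
  have hδ1 : δ ≤ 1 := by
    rw [hδ]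
    apply pow_le_one₀ (by positivity)
    rw [div_le_one hlam0]
    exact hlam
  have hcount : ∀ ε : ℝ, 0 < ε → ∃ T : ℕ, 1 ≤ T ∧ ∀ C : Finset (Finset (Fin T)),
      (∀ S ∈ C, ∀ S', S' ⊆ S → S' ∈ C) → (∀ m, ¬ Fails lam C m) →
      (δ - ε) * (T : ℝ) ^ (k + 1) ≤ ((univ.filter (fun u : Fin (k + 1) → Fin T =>
        Function.Injective u ∧ univ.image u ∈ C)).card : ℝ) := by
    rw [hδ]
    exact fun ε hε => Pool.Agent.W25.QL.count_pow hlam k ε hε
  rcases le_or_gt δ ε with hδε | hδε
  · refine ⟨0, 0, 1, one_pos, fun V G _ _ _ => ?_⟩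
    have : (δ - ε) * (V.card : ℝ) ^ (k + 1) ≤ 0 :=
      mul_nonpos_of_nonpos_of_nonneg (by linarith) (by positivity)
    exact this.trans (Nat.cast_nonneg _)
  have hε1 : ε ≤ 1 := by linarith
  obtain ⟨T, hT1, hTc⟩ := hcount (ε / 4) (by linarith)
  have hTp : (0 : ℝ) < T := by exact_mod_cast hT1
  obtain ⟨M, n₀, δ', hδ', hBRM⟩ := hB lam hlam0 T Kf (ε / 4) (by linarith)
  refine ⟨M, max n₀ (⌈4 * (T : ℝ) ^ 2 / ε⌉₊ + 1), δ', hδ', ?_⟩
  intro V G hV hG hQ
  have hbad := hBRM ℕ V G ((le_max_left _ _).trans hV) hG hQ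
  set n : ℝ := (V.card : ℝ) with hn
  have hn1 : ⌈4 * (T : ℝ) ^ 2 / ε⌉₊ + 1 ≤ V.card := (le_max_right _ _).trans hV
  have hn0 : 0 < n := by
    have : 0 < V.card := by omega
    rw [hn]; exact_mod_cast this
  have hnT : (T : ℝ) ^ 2 ≤ ε / 4 * n := by
    have h1 : 4 * (T : ℝ) ^ 2 / ε ≤ n := by
      calc 4 * (T : ℝ) ^ 2 / ε ≤ ⌈4 * (T : ℝ) ^ 2 / ε⌉₊ := Nat.le_ceil _
        _ ≤ n := by rw [hn]; exact_mod_cast (by omega : ⌈4 * (T : ℝ) ^ 2 / ε⌉₊ ≤ V.card)
    rw [div_le_iff₀ hε] at h1
    linarith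
  have hni := Pool.Agent.H362R2.CM.card_not_injective_le T V
  rw [← hn] at hni
  have hni' : (((Fintype.piFinset (fun _ : Fin T => V)).filter
      (fun φ => ¬ Function.Injective φ)).card : ℝ) ≤ ε / 4 * n ^ T := by
    have h1 : (((Fintype.piFinset (fun _ : Fin T => V)).filter
      (fun φ => ¬ Function.Injective φ)).card : ℝ) * n ≤ (ε / 4 * n ^ T) * n := by
      refine le_trans (le_of_eq (by congr!)) (hni.trans ?_)
      calc (T : ℝ) ^ 2 * n ^ T ≤ (ε / 4 * n) * n ^ T :=
            mul_le_mul_of_nonneg_right hnT (by positivity)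
        _ = _ := by ring
    exact le_of_mul_le_mul_right h1 hn0
  set Bad := (Fintype.piFinset (fun _ : Fin T => V)).filter (fun x => Function.Injective x ∧
        ∃ m, Fails lam (Cx G x) m) with hBad
  set NI := (Fintype.piFinset (fun _ : Fin T => V)).filter
      (fun φ => ¬ Function.Injective φ) with hNI
  set Gd := (Fintype.piFinset (fun _ : Fin T => V)).filter (fun x => Function.Injective x ∧
        ¬ ∃ m, Fails lam (Cx G x) m) with hGd
  have hGd' : (1 - ε / 2) * n ^ T ≤ (Gd.card : ℝ) := by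
    have h1 : (Fintype.piFinset (fun _ : Fin T => V)).card ≤ Bad.card + NI.card + Gd.card := by
      have h2 : Fintype.piFinset (fun _ : Fin T => V) ⊆ Bad ∪ NI ∪ Gd := by
        intro x hx
        simp only [hBad, hNI, hGd, mem_union, mem_filter]
        by_cases h3 : Function.Injective x
        · by_cases h4 : ∃ m, Fails lam (Cx G x) m
          · exact Or.inl (Or.inl ⟨hx, h3, h4⟩)
          · exact Or.inr ⟨hx, h3, h4⟩
        · exact Or.inl (Or.inr ⟨hx, h3⟩)
      refine (card_le_card h2).trans ((card_union_le _ _).trans ?_)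
      exact Nat.add_le_add_right (card_union_le _ _) _
    have h2 : (Fintype.piFinset (fun _ : Fin T => V)).card = V.card ^ T := by
      rw [Fintype.card_piFinset, prod_const, card_univ, Fintype.card_fin]
    rw [h2] at h1
    have h3 : n ^ T ≤ (Bad.card : ℝ) + NI.card + Gd.card := by
      rw [hn]; exact_mod_cast h1
    linarith
  set P : (Fin (k + 1) → ℕ) → Prop := fun y => Function.Injective y ∧ G (univ.image y) with hP
  set Y := (Fintype.piFinset (fun _ : Fin (k + 1) => V)).filter P with hY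
  -- every good tuple contains many good subtuples
  have hlow : ∀ x ∈ Gd, (δ - ε / 4) * (T : ℝ) ^ (k + 1) ≤
      ((univ.filter (fun u : Fin (k + 1) → Fin T => Function.Injective u ∧
        P (fun i => x (u i)))).card : ℝ) := by
    intro x hx
    rw [hGd, mem_filter] at hx
    obtain ⟨_, hxi, hxf⟩ := hx
    push Not at hxf
    have hdc : ∀ S ∈ Cx G x, ∀ S', S' ⊆ S → S' ∈ Cx G x := by
      intro S hS S' hS'
      rw [mem_Cx] at hS ⊢
      exact hG _ _ (image_subset_image hS') hS
    refine (hTc (Cx G x) hdc hxf).trans ?_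
    have : (univ.filter (fun u : Fin (k + 1) → Fin T =>
      Function.Injective u ∧ univ.image u ∈ Cx G x)) ⊆ (univ.filter (fun u : Fin (k + 1) → Fin T =>
        Function.Injective u ∧ P (fun i => x (u i)))) := by
      intro u hu
      rw [mem_filter] at hu ⊢
      refine ⟨mem_univ _, hu.2.1, hxi.comp hu.2.1, ?_⟩
      have h1 := mem_Cx.1 hu.2.2
      rw [image_image] at h1
      exact h1
    exact_mod_cast card_le_card this
  -- double counting
  have hdc : (∑ x ∈ Fintype.piFinset (fun _ : Fin T => V),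
      (univ.filter (fun u : Fin (k + 1) → Fin T => Function.Injective u ∧
        P (fun i => x (u i)))).card) * V.card ^ (k + 1) ≤
      T ^ (k + 1) * (V.card ^ T * Y.card) := by
    have h1 : (∑ x ∈ Fintype.piFinset (fun _ : Fin T => V),
      (univ.filter (fun u : Fin (k + 1) → Fin T => Function.Injective u ∧
        P (fun i => x (u i)))).card) = ∑ u : Fin (k + 1) → Fin T, if Function.Injective u then
          ((Fintype.piFinset (fun _ : Fin T => V)).filter (fun x => P (fun i => x (u i)))).card else 0 := by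
      simp only [card_filter]
      rw [Finset.sum_comm]
      refine Finset.sum_congr rfl fun u _ => ?_
      split_ifs with h
      · simp [h]
      · simp [h]
    rw [h1, Finset.sum_mul]
    calc ∑ u : Fin (k + 1) → Fin T, (if Function.Injective u then
          ((Fintype.piFinset (fun _ : Fin T => V)).filter (fun x => P (fun i => x (u i)))).card else 0) *
            V.card ^ (k + 1) ≤ ∑ _u : Fin (k + 1) → Fin T, V.card ^ T * Y.card := by
          refine Finset.sum_le_sum fun u _ => ?_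
          split_ifs with h
          · refine le_of_eq ?_
            have h9 := card_pull V u h P
            convert h9
          · rw [Nat.zero_mul]; exact Nat.zero_le _
      _ = T ^ (k + 1) * (V.card ^ T * Y.card) := by
          rw [sum_const, card_univ, Fintype.card_fun, Fintype.card_fin, Fintype.card_fin, smul_eq_mul]
  have hdcR : ((∑ x ∈ Fintype.piFinset (fun _ : Fin T => V),
      (univ.filter (fun u : Fin (k + 1) → Fin T => Function.Injective u ∧
        P (fun i => x (u i)))).card : ℕ) : ℝ) * n ^ (k + 1) ≤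
      (T : ℝ) ^ (k + 1) * (n ^ T * Y.card) := by
    rw [hn]; exact_mod_cast hdc
  have hsum : (Gd.card : ℝ) * ((δ - ε / 4) * (T : ℝ) ^ (k + 1)) ≤
      ((∑ x ∈ Fintype.piFinset (fun _ : Fin T => V),
      (univ.filter (fun u : Fin (k + 1) → Fin T => Function.Injective u ∧
        P (fun i => x (u i)))).card : ℕ) : ℝ) := by
    push_cast
    rw [← nsmul_eq_mul]
    refine (Finset.card_nsmul_le_sum Gd _ _ hlow).trans ?_
    exact Finset.sum_le_sum_of_subset_of_nonneg (filter_subset _ _) fun _ _ _ => Nat.cast_nonneg _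
  have hx1 : 0 ≤ 1 - ε / 2 := by linarith
  have ha0 : 0 < δ - ε / 4 := by linarith
  have hTk1 : 0 < (T : ℝ) ^ (k + 1) := by positivity
  have hnT1 : 0 < n ^ T := by positivity
  have hfin : (δ - ε / 4) * (1 - ε / 2) * n ^ (k + 1) ≤ Y.card := by
    have h1 : ((1 - ε / 2) * n ^ T) * ((δ - ε / 4) * (T : ℝ) ^ (k + 1)) * n ^ (k + 1) ≤
        (T : ℝ) ^ (k + 1) * (n ^ T * Y.card) := by
      refine le_trans ?_ hdcR
      apply mul_le_mul_of_nonneg_right _ (by positivity)
      refine le_trans ?_ hsum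
      exact mul_le_mul_of_nonneg_right hGd' (by positivity)
    have h2 : ((T : ℝ) ^ (k + 1) * n ^ T) * ((δ - ε / 4) * (1 - ε / 2) * n ^ (k + 1)) ≤
        ((T : ℝ) ^ (k + 1) * n ^ T) * Y.card := by
      calc ((T : ℝ) ^ (k + 1) * n ^ T) * ((δ - ε / 4) * (1 - ε / 2) * n ^ (k + 1)) =
          ((1 - ε / 2) * n ^ T) * ((δ - ε / 4) * (T : ℝ) ^ (k + 1)) * n ^ (k + 1) := by ring
        _ ≤ _ := h1
        _ = _ := by ring
    exact le_of_mul_le_mul_left h2 (by positivity)
  refine le_trans ?_ hfin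
  apply mul_le_mul_of_nonneg_right _ (by positivity)
  nlinarith [sq_nonneg ε]

end Pool.Agent.K9h13.FE
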