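import Pool.Agent.K9h13.FE.Mass
import Pool.Agent.K9h13.FC.KT

/-!
# Shapes of prime tuples of the right order
-/

set_option autoImplicit false

namespace Pool.Agent.K9h13.FE

open Finset Filter Topology Pool.Agent.H387R2
open Pool.Agent.N646.RO (S_BRM)
open Pool.Agent.Helper22K9.Trp (gall)
open Pool.Agent.K9h13.FC (shp tr mx sum_shp CT_tr le_mx card_tr pr)

/-- from `N` to `x` -/
lemma scale (k : ℕ) : ∀ᶠ x : ℝ in atTop,
    x / (Real.log x) ^ k ≤ 4 * (((⌊x / 3⌋₊ : ℕ) : ℝ) / (Real.log ((⌊x / 3⌋₊ : ℕ) : ℝ)) ^ k) := by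
  filter_upwards [eventually_ge_atTop (100 : ℝ)] with x hx
  obtain ⟨N, hN⟩ : ∃ N, N = ⌊x / 3⌋₊ := ⟨_, rfl⟩
  rw [← hN]
  have h1 : x / 3 < N + 1 := by rw [hN]; exact Nat.lt_floor_add_one _
  have h2 : (N : ℝ) ≤ x / 3 := by rw [hN]; exact Nat.floor_le (by positivity)
  have h3 : x / 4 ≤ N := by linarith
  have hN1 : (2 : ℝ) ≤ N := by linarith
  have hl : 0 < Real.log N := Real.log_pos (by linarith)
  have hl2 : Real.log N ≤ Real.log x := Real.log_le_log (by linarith) (by linarith)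
  rw [← mul_div_assoc]
  apply div_le_div₀ (by positivity) (by linarith) (by positivity)
  exact pow_le_pow_left₀ hl.le hl2 _

lemma cR_tr (S : Finset ℕ) (a N : ℕ) (x : ℝ) (hx : ((2 * N + a : ℕ) : ℝ) ≤ x) : cR N (tr S a) ≤ pr x S := by
  unfold cR pr
  apply card_le_card_of_injOn (fun n => n + a)
  · intro n hn
    rw [mem_coe, mem_filter, mem_Icc] at hn
    rw [mem_coe, mem_filter, mem_range]
    refine ⟨?_, fun t ht => ?_⟩
    · show n + a < ⌊x⌋₊ + 1
      have h1 : 2 * N + a ≤ ⌊x⌋₊ := Nat.le_floor hx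
      omega
    · show (n + a + t).Prime
      have h1 : t + a ∈ tr S a := by
        unfold tr
        exact mem_image_of_mem _ ht
      have h2 := hn.2 _ h1
      have e : n + a + t = n + (t + a) := by ring
      rw [e]
      exact h2
  · intro a' _ b _ hab
    have : a' + a = b + a := hab
    omega

open Classical in
/-- **The proportion of the shapes of the right order.** -/
theorem shR (hBRM : S_BRM) (s : ℕ) (hH : S_HITM s) (ε : ℝ) (hε : 0 < ε) (lam : ℝ) (hlam : 0 < lam) :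
    ∃ κ : ℝ, 0 < κ ∧ ∃ X : ℝ, ∀ x : ℝ, X ≤ x → ∀ D : ℕ, lam * Real.log x ≤ D → 8 * (D : ℝ) ≤ x →
      ((5 / 18) ^ s - ε) * ∑ T ∈ shp (s + 1) D, ((D : ℝ) - mx T) * Uni.CT T ≤
        ∑ T ∈ (shp (s + 1) D).filter (fun T => κ * Uni.CT T * (x / (Real.log x) ^ (s + 1)) ≤ (pr x T : ℝ)),
          ((D : ℝ) - mx T) * Uni.CT T := by
  obtain ⟨c, hc⟩ : ∃ c : ℝ, c = (5 / 18) ^ s := ⟨_, rfl⟩
  rw [← hc]
  have hc1 : c ≤ 1 := by rw [hc]; exact pow_le_one₀ (by norm_num) (by norm_num)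
  have hc0 : 0 < c := by rw [hc]; positivity
  obtain ⟨ε₁, hε₁⟩ : ∃ ε₁ : ℝ, ε₁ = min (ε / 3) (c / 2) := ⟨_, rfl⟩
  have hε₁0 : 0 < ε₁ := by rw [hε₁]; positivity
  have hε₁1 : ε₁ ≤ ε / 3 := by rw [hε₁]; exact min_le_left _ _
  have hε₁2 : ε₁ ≤ c / 2 := by rw [hε₁]; exact min_le_right _ _
  have hf : (0 : ℝ) < (s + 1).factorial := by exact_mod_cast Nat.factorial_pos _
  obtain ⟨κ, hκ, h⟩ := massR hBRM s hH ε₁ hε₁0 lam 1 hlam one_pos
  rw [← hc] at h
  obtain ⟨N₁, h'⟩ := gall s ε₁ hε₁0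
  refine ⟨κ / 4, by positivity, ?_⟩
  have tN : Tendsto (fun x : ℝ => ⌊x / 3⌋₊) atTop atTop :=
    tendsto_nat_floor_atTop.comp (tendsto_id.atTop_div_const (by norm_num))
  have tlog : Tendsto (fun x : ℝ => lam * Real.log x) atTop atTop :=
    Real.tendsto_log_atTop.const_mul_atTop hlam
  have hev : ∀ᶠ x : ℝ in atTop, ∀ D : ℕ, lam * Real.log x ≤ D → 8 * (D : ℝ) ≤ x →
      (c - ε) * ∑ T ∈ shp (s + 1) D, ((D : ℝ) - mx T) * Uni.CT T ≤
        ∑ T ∈ (shp (s + 1) D).filter (fun T => κ / 4 * Uni.CT T * (x / (Real.log x) ^ (s + 1)) ≤ (pr x T : ℝ)),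
          ((D : ℝ) - mx T) * Uni.CT T := by
    filter_upwards [tN.eventually h, scale (s + 1), eventually_ge_atTop (100 : ℝ),
      tlog.eventually_ge_atTop (N₁ : ℝ)] with x hx hsc hx100 hxN₁ D hD1 hD2
    obtain ⟨N, hN⟩ : ∃ N, N = ⌊x / 3⌋₊ := ⟨_, rfl⟩
    rw [← hN] at hx hsc
    have hb1 : x / 3 < N + 1 := by rw [hN]; exact Nat.lt_floor_add_one _
    have hb2 : (N : ℝ) ≤ x / 3 := by rw [hN]; exact Nat.floor_le (by positivity)
    have hN1 : (2 : ℝ) ≤ N := by linarith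
    have hlogN : Real.log N ≤ Real.log x := Real.log_le_log (by linarith) (by linarith)
    have hDN : 2 * D ≤ N := by
      have : (2 * (D : ℝ)) ≤ N := by linarith
      exact_mod_cast this
    have hDl : lam * Real.log N ≤ D := (mul_le_mul_of_nonneg_left hlogN hlam.le).trans hD1
    have hDN₁ : N₁ ≤ D := by exact_mod_cast hxN₁.trans hD1
    have key := hx D hDl hDN (Icc 1 D) subset_rfl (by simp)
    have hcard : (Icc 1 D).card = D := by simp
    rw [hcard] at key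
    have k1 : (c - ε₁) * ((D : ℝ) ^ (s + 1) / (s + 1).factorial) ≤ ∑ T ∈ gdR s κ N (Icc 1 D), Uni.CT T := by
      rw [← mul_div_assoc, div_le_iff₀ hf]
      linarith
    have hmx : ∀ S ∈ shp (s + 1) D, ((Icc 1 (D - mx S)).card : ℝ) = (D : ℝ) - mx S := by
      intro S hS
      unfold shp at hS
      rw [mem_filter, mem_powersetCard] at hS
      have h3 : mx S ≤ D := by
        unfold mx
        apply Finset.sup_le
        intro t ht
        exact (mem_range.1 (hS.1.1 ht)).le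
      rw [Nat.card_Icc, Nat.add_sub_cancel, Nat.cast_sub h3]
    have k2 : ∑ T ∈ (Icc 1 D).powersetCard (s + 1), Uni.CT T = ∑ S ∈ shp (s + 1) D, ((D : ℝ) - mx S) * Uni.CT S := by
      rw [sum_shp (s + 1) D (by omega)]
      apply sum_congr rfl
      intro S hS
      simp only [CT_tr]
      rw [sum_const, nsmul_eq_mul, hmx S hS]
    have k3 : ∑ T ∈ gdR s κ N (Icc 1 D), Uni.CT T ≤
        ∑ T ∈ (shp (s + 1) D).filter (fun T => κ / 4 * Uni.CT T * (x / (Real.log x) ^ (s + 1)) ≤ (pr x T : ℝ)),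
          ((D : ℝ) - mx T) * Uni.CT T := by
      unfold gdR
      rw [sum_filter, sum_shp (s + 1) D (by omega), sum_filter]
      apply sum_le_sum
      intro S hS
      split_ifs with hg
      · rw [← hmx S hS, ← nsmul_eq_mul, ← sum_const]
        apply sum_le_sum
        intro a _
        split_ifs
        · rw [CT_tr]
        · exact Uni.CT_nonneg S
      · apply le_of_eq
        apply sum_eq_zero
        intro a ha
        rw [if_neg]
        intro h3
        apply hg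
        rw [CT_tr] at h3
        rw [mem_Icc] at ha
        have ha2 : a ≤ D := ha.2.trans (Nat.sub_le _ _)
        have haR : (a : ℝ) ≤ D := by exact_mod_cast ha2
        have h4 : ((cR N (tr S a) : ℕ) : ℝ) ≤ (pr x S : ℝ) := by
          exact_mod_cast cR_tr S a N x (by push_cast; linarith)
        have h5 := Uni.CT_nonneg S
        calc κ / 4 * Uni.CT S * (x / (Real.log x) ^ (s + 1))
            ≤ κ / 4 * Uni.CT S * (4 * ((N : ℝ) / (Real.log N) ^ (s + 1))) :=
              mul_le_mul_of_nonneg_left hsc (by positivity)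
          _ = κ * Uni.CT S * ((N : ℝ) / (Real.log N) ^ (s + 1)) := by ring
          _ ≤ _ := h3.trans h4
    have k4 := h' D hDN₁
    rw [k2] at k4
    obtain ⟨Q, hQ⟩ : ∃ Q : ℝ, Q = ∑ S ∈ shp (s + 1) D, ((D : ℝ) - mx S) * Uni.CT S := ⟨_, rfl⟩
    rw [← hQ] at k4 ⊢
    have hQ0 : 0 ≤ Q := by
      rw [hQ, ← k2]
      exact sum_nonneg fun T _ => Uni.CT_nonneg T
    refine le_trans ?_ (k1.trans k3)
    have k5 : Q ≤ (1 + ε₁) * ((D : ℝ) ^ (s + 1) / (s + 1).factorial) := by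
      rw [← mul_div_assoc, le_div_iff₀ hf]
      linarith
    have hDp : 0 ≤ (D : ℝ) ^ (s + 1) / (s + 1).factorial := by positivity
    rcases le_or_gt (c - ε) 0 with hcc | hcc
    · have h1 : (c - ε) * Q ≤ 0 := mul_nonpos_of_nonpos_of_nonneg hcc hQ0
      have h2 : 0 ≤ (c - ε₁) * ((D : ℝ) ^ (s + 1) / (s + 1).factorial) := mul_nonneg (by linarith) hDp
      linarith
    · calc (c - ε) * Q ≤ (c - ε) * ((1 + ε₁) * ((D : ℝ) ^ (s + 1) / (s + 1).factorial)) :=
            mul_le_mul_of_nonneg_left k5 hcc.le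
        _ = ((c - ε) * (1 + ε₁)) * ((D : ℝ) ^ (s + 1) / (s + 1).factorial) := by ring
        _ ≤ _ := by
            apply mul_le_mul_of_nonneg_right _ hDp
            nlinarith
  obtain ⟨X, hX⟩ := eventually_atTop.1 hev
  exact ⟨X, fun x hx => hX x hx⟩

end Pool.Agent.K9h13.FE
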