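import Mathlib
import Pool.Agent.N646.RO.Stm3
import Pool.Agent.H387R2.UDefs

/-! # The right order of magnitude for prime tuples with shifts in arbitrary sets: statements

The chain HIT, E1, E2, HITM of the starting project RQ (`Pool.Agent.N646.RO`, by helpers 646, 2, 769, 738, ...)
is about shifts which are multiples of a fixed number; here the shifts are in any dense subset of an interval. -/

set_option autoImplicit false

namespace Pool.Agent.K9h13.FE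

open Finset Filter Topology
open Pool.Agent.N646.RO (Rgh)
open Pool.Agent.H387R2

open Classical in
/-- **HIT** one configuration: `T` classes with `K` shifts each. -/
def S_HIT : Prop := ∀ T M : ℕ, 1 ≤ T → (18 / 5 : ℝ) * M < T → ∃ K s : ℕ, 1 ≤ K ∧ ∃ δ c : ℝ, 0 < δ ∧ 0 < c ∧
  ∀ᶠ N : ℕ in atTop, ∀ H : Fin T × Fin K → ℕ, Function.Injective H → (∀ x, 2 * H x ≤ N) →
    (∀ p : ℕ, p.Prime → p ≤ T * K → ∃ r : ℤ, ∀ x, ¬ (p : ℤ) ∣ r + H x) →
    ∃ (S : Finset (Fin T)) (σ : Fin T → Fin K), M + 1 ≤ S.card ∧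
      c * (N / (Real.log N) ^ (T * K)) ≤
        ∑ n ∈ (Icc (N / 18) (2 * N)).filter (fun n : ℕ => (∀ x, Rgh δ N (n + H x)) ∧
            ∀ g ∈ S, (n + H (g, σ g)).Prime),
          (((range (⌊Real.log N⌋₊ + s + 1)).filter (fun j : ℕ => Rgh δ N (n - j))).card : ℝ)

/-- the number of the `1 ≤ n ≤ 2 N` for which all `n + F i` are prime -/
def pF {k : ℕ} (N : ℕ) (F : Fin (k + 1) → ℕ) : ℕ :=
  ((Icc 1 (2 * N)).filter (fun n : ℕ => ∀ i, (n + F i).Prime)).card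

/-- the right order of magnitude -/
def Gd {k : ℕ} (κ : ℝ) (N : ℕ) (F : Fin (k + 1) → ℕ) : Prop :=
  κ * Uni.CT (univ.image F) * (N / (Real.log N) ^ (k + 1)) ≤ (pF N F : ℝ)

open Classical in
/-- **E1** the second moment of the number of rough integers just below `n`, over all configurations. -/
def S_E1 : Prop := ∀ (T K s : ℕ) (δ lam c₀ : ℝ), 0 < δ → 0 < lam → 0 < c₀ → ∃ C : ℝ, 0 < C ∧
  ∀ᶠ N : ℕ in atTop, ∀ D : ℕ, lam * Real.log N ≤ D → 2 * D ≤ N → ∀ V ⊆ Icc 1 D, c₀ * D ≤ V.card →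
    ∑ H ∈ Fintype.piFinset (fun _ : Fin T × Fin K => V),
      ∑ n ∈ (Icc (N / 18) (2 * N)).filter (fun n : ℕ => ∀ x, Rgh δ N (n + H x)),
        (((range (⌊Real.log N⌋₊ + s + 1)).filter (fun j : ℕ => Rgh δ N (n - j))).card : ℝ) ^ 2 ≤
      C * N * (V.card / Real.log N) ^ (T * K)

open Classical in
/-- **E2** the bad tuples contribute little. -/
def S_E2 (k : ℕ) : Prop := ∀ (T K : ℕ) (δ lam c₀ : ℝ), 0 < δ → 0 < lam → 0 < c₀ → ∃ C : ℝ, 0 < C ∧
  ∀ᶠ N : ℕ in atTop, ∀ D : ℕ, lam * Real.log N ≤ D → 2 * D ≤ N → ∀ V ⊆ Icc 1 D, c₀ * D ≤ V.card →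
    ∀ κ : ℝ, 0 < κ → κ ≤ 1 → ∀ π : Fin (k + 1) → Fin T × Fin K, Function.Injective π →
    ∑ H ∈ (Fintype.piFinset (fun _ : Fin T × Fin K => V)).filter
        (fun H => Function.Injective H ∧ ¬ Gd κ N (fun i => H (π i))),
      (((Icc (N / 18) (2 * N)).filter (fun n : ℕ => (∀ x, Rgh δ N (n + H x)) ∧
        ∀ i, (n + H (π i)).Prime)).card : ℝ) ≤
      C * Real.sqrt κ * N * (V.card / Real.log N) ^ (T * K)

open Classical in
/-- **HITM** for most configurations there is a large transversal all of whose `k + 1` element subsets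
have the right order of magnitude. -/
def S_HITM (k : ℕ) : Prop := ∀ T M : ℕ, 1 ≤ T → (18 / 5 : ℝ) * M < T → ∃ K : ℕ, 1 ≤ K ∧
  ∀ lam c₀ δ' : ℝ, 0 < lam → 0 < c₀ → 0 < δ' → ∃ κ : ℝ, 0 < κ ∧ ∀ᶠ N : ℕ in atTop,
    ∀ D : ℕ, lam * Real.log N ≤ D → 2 * D ≤ N → ∀ V ⊆ Icc 1 D, c₀ * D ≤ V.card →
    (∀ p : ℕ, p.Prime → p ≤ T * K → ∃ r : ℤ, ∀ v ∈ V, ¬ (p : ℤ) ∣ r + v) →
    (((Fintype.piFinset (fun _ : Fin T × Fin K => V)).filter (fun H => Function.Injective H ∧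
      ¬ ∃ (S : Finset (Fin T)) (σ : Fin T → Fin K), M + 1 ≤ S.card ∧
        ∀ F : Fin (k + 1) → ℕ, Function.Injective F → (∀ i, ∃ g ∈ S, F i = H (g, σ g)) →
          Gd κ N F)).card : ℝ) ≤ δ' * (V.card : ℝ) ^ (T * K)

end Pool.Agent.K9h13.FE
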