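import Pool.Agent.K9h13.FE.Gen
import Pool.Agent.Helper22K9.Trp.Gall

/-! # The proportion of the tuples of the right order in dense sets (adapted from `N646/RO/Asm.lean`, `clr`) -/

set_option autoImplicit false

namespace Pool.Agent.K9h13.FE

open Finset Filter Topology
open Pool.Agent.N646.RO (HitM S_BRM)
open Pool.Agent.H387R2

theorem ceilM (T : ℕ) (hT : 1 ≤ T) : ∃ M : ℕ, (18 / 5 : ℝ) * M < T ∧ (T : ℝ) ≤ (18 / 5) * ((M + 1 : ℕ) : ℝ) := by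
  have hT0 : (0 : ℝ) < T := by exact_mod_cast hT
  have hpos : 0 < ⌈(T : ℝ) / (18 / 5)⌉₊ := Nat.ceil_pos.2 (by positivity)
  refine ⟨⌈(T : ℝ) / (18 / 5)⌉₊ - 1, ?_, ?_⟩
  · have h1 : ((⌈(T : ℝ) / (18 / 5)⌉₊ - 1 : ℕ) : ℝ) < (T : ℝ) / (18 / 5) := by
      rw [← Nat.lt_ceil]
      omega
    rw [lt_div_iff₀ (by norm_num)] at h1
    linarith
  · have e : ⌈(T : ℝ) / (18 / 5)⌉₊ - 1 + 1 = ⌈(T : ℝ) / (18 / 5)⌉₊ := by omega
    rw [e]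
    have h1 := Nat.le_ceil ((T : ℝ) / (18 / 5))
    rw [div_le_iff₀ (by norm_num)] at h1
    linarith

theorem min_pos' (f : ℕ → ℝ) (hf : ∀ n, 0 < f n) (M : ℕ) : ∃ κ : ℝ, 0 < κ ∧ ∀ n ≤ M, κ ≤ f n := by
  induction M with
  | zero => exact ⟨f 0, hf 0, fun n hn => by rw [Nat.le_zero.1 hn]⟩
  | succ M ih =>
    obtain ⟨κ, h1, h2⟩ := ih
    refine ⟨min κ (f (M + 1)), lt_min h1 (hf _), fun n hn => ?_⟩
    rcases Nat.lt_or_ge n (M + 1) with h | h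
    · exact (min_le_left _ _).trans (h2 n (by omega))
    · have : n = M + 1 := by omega
      rw [this]
      exact min_le_right _ _

theorem Gd_mono {k : ℕ} {κ κ' : ℝ} {N : ℕ} {F : Fin (k + 1) → ℕ} (h : κ' ≤ κ) (hF : Gd κ N F) :
    Gd κ' N F := by
  unfold Gd at hF ⊢
  refine le_trans (mul_le_mul_of_nonneg_right (mul_le_mul_of_nonneg_right h (Uni.CT_nonneg _)) ?_) hF
  have : 0 ≤ Real.log (N : ℝ) := Real.log_natCast_nonneg N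
  positivity

open Classical in
theorem tupV (hB : S_BRM) (k : ℕ) (hH : S_HITM k) (ε : ℝ) (hε : 0 < ε) : ∃ z : ℕ,
    ∀ lam c₀ : ℝ, 0 < lam → 0 < c₀ → ∃ κ : ℝ, 0 < κ ∧ ∀ᶠ N : ℕ in atTop,
    ∀ D : ℕ, lam * Real.log N ≤ D → 2 * D ≤ N → ∀ V ⊆ Icc 1 D, c₀ * D ≤ V.card →
    (∀ p : ℕ, p.Prime → p ≤ z → ∃ r : ℤ, ∀ v ∈ V, ¬ (p : ℤ) ∣ r + v) →
      ((5 / 18) ^ k - ε) * (V.card : ℝ) ^ (k + 1) ≤
        (((Fintype.piFinset (fun _ : Fin (k + 1) => V)).filter (fun y : Fin (k + 1) → ℕ =>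
          Function.Injective y ∧ Gd κ N y)).card : ℝ) := by
  have hex : ∀ T : ℕ, ∃ M' K : ℕ, 1 ≤ T → (T : ℝ) ≤ (18 / 5) * ((M' + 1 : ℕ) : ℝ) ∧ 1 ≤ K ∧
    ∀ lam c₀ δ' : ℝ, 0 < lam → 0 < c₀ → 0 < δ' → ∃ κ : ℝ, 0 < κ ∧ ∀ᶠ N : ℕ in atTop,
    ∀ D : ℕ, lam * Real.log N ≤ D → 2 * D ≤ N → ∀ V ⊆ Icc 1 D, c₀ * D ≤ V.card →
    (∀ p : ℕ, p.Prime → p ≤ T * K → ∃ r : ℤ, ∀ v ∈ V, ¬ (p : ℤ) ∣ r + v) →
    (((Fintype.piFinset (fun _ : Fin T × Fin K => V)).filter (fun H => Function.Injective H ∧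
      ¬ ∃ (S : Finset (Fin T)) (σ : Fin T → Fin K), M' + 1 ≤ S.card ∧
        ∀ F : Fin (k + 1) → ℕ, Function.Injective F → (∀ i, ∃ g ∈ S, F i = H (g, σ g)) →
          Gd κ N F)).card : ℝ) ≤ δ' * (V.card : ℝ) ^ (T * K) := by
    intro T
    by_cases hT : 1 ≤ T
    · obtain ⟨M', h1, h2⟩ := ceilM T hT
      obtain ⟨K, hK, h3⟩ := hH T M' hT h1
      exact ⟨M', K, fun _ => ⟨h2, hK, h3⟩⟩
    · exact ⟨0, 0, fun h => absurd h hT⟩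
  choose Mf Kf hf using hex
  obtain ⟨M, n₀, δ', hδ', hG0⟩ := genM hB (18 / 5) (by norm_num) k ε hε Kf
  refine ⟨∑ T' ∈ range (M + 1), T' * Kf T', fun lam c₀ hlam hc₀ => ?_⟩
  obtain ⟨z, hz⟩ : ∃ z, z = ∑ T' ∈ range (M + 1), T' * Kf T' := ⟨_, rfl⟩
  rw [← hz]
  have hzle : ∀ T', T' ≤ M → T' * Kf T' ≤ z := by
    intro T' hT'
    rw [hz]
    exact Finset.single_le_sum (f := fun T' => T' * Kf T') (fun _ _ => Nat.zero_le _)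
      (mem_range.2 (by omega : T' < M + 1))
  have hκex : ∀ T' : ℕ, ∃ κ : ℝ, 0 < κ ∧ (1 ≤ T' → T' ≤ M → ∀ᶠ N : ℕ in atTop,
    ∀ D : ℕ, lam * Real.log N ≤ D → 2 * D ≤ N → ∀ V ⊆ Icc 1 D, c₀ * D ≤ V.card →
    (∀ p : ℕ, p.Prime → p ≤ T' * Kf T' → ∃ r : ℤ, ∀ v ∈ V, ¬ (p : ℤ) ∣ r + v) →
    (((Fintype.piFinset (fun _ : Fin T' × Fin (Kf T') => V)).filter (fun H => Function.Injective H ∧
      ¬ ∃ (S : Finset (Fin T')) (σ : Fin T' → Fin (Kf T')), Mf T' + 1 ≤ S.card ∧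
        ∀ F : Fin (k + 1) → ℕ, Function.Injective F → (∀ i, ∃ g ∈ S, F i = H (g, σ g)) →
          Gd κ N F)).card : ℝ) ≤ δ' * (V.card : ℝ) ^ (T' * Kf T')) := by
    intro T'
    by_cases h : 1 ≤ T' ∧ T' ≤ M
    · obtain ⟨h1, h2⟩ := h
      obtain ⟨_, _, h3⟩ := hf T' h1
      obtain ⟨κ, hκ, h4⟩ := h3 lam c₀ δ' hlam hc₀ hδ'
      exact ⟨κ, hκ, fun _ _ => h4⟩
    · exact ⟨1, one_pos, fun h1 h2 => absurd ⟨h1, h2⟩ h⟩
  choose κf hκf hκf' using hκex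
  obtain ⟨κ, hκ, hκle⟩ := min_pos' κf hκf M
  refine ⟨κ, hκ, ?_⟩
  have hev : ∀ᶠ N : ℕ in atTop, ∀ T' ∈ Icc 1 M,
    ∀ D : ℕ, lam * Real.log N ≤ D → 2 * D ≤ N → ∀ V ⊆ Icc 1 D, c₀ * D ≤ V.card →
    (∀ p : ℕ, p.Prime → p ≤ T' * Kf T' → ∃ r : ℤ, ∀ v ∈ V, ¬ (p : ℤ) ∣ r + v) →
    (((Fintype.piFinset (fun _ : Fin T' × Fin (Kf T') => V)).filter (fun H => Function.Injective H ∧
      ¬ ∃ (S : Finset (Fin T')) (σ : Fin T' → Fin (Kf T')), Mf T' + 1 ≤ S.card ∧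
        ∀ F : Fin (k + 1) → ℕ, Function.Injective F → (∀ i, ∃ g ∈ S, F i = H (g, σ g)) →
          Gd (κf T') N F)).card : ℝ) ≤ δ' * (V.card : ℝ) ^ (T' * Kf T') := by
    rw [Filter.eventually_all_finset]
    intro T' hT'
    obtain ⟨h1, h2⟩ := mem_Icc.1 hT'
    exact hκf' T' h1 h2
  have hlog : Tendsto (fun N : ℕ => c₀ * (lam * Real.log (N : ℝ))) atTop atTop :=
    ((Real.tendsto_log_atTop.comp tendsto_natCast_atTop_atTop).const_mul_atTop hlam).const_mul_atTop hc₀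
  filter_upwards [hev, hlog.eventually_ge_atTop (n₀ : ℝ)] with N hN hNn D hD1 hD2 V hV hVc hadm
  have hn0V : n₀ ≤ V.card := by
    have h1 : c₀ * (lam * Real.log N) ≤ c₀ * D := mul_le_mul_of_nonneg_left hD1 hc₀.le
    have : (n₀ : ℝ) ≤ V.card := by linarith
    exact_mod_cast this
  set G : Finset ℕ → Prop := fun F' => ∀ y : Fin (k + 1) → ℕ, Function.Injective y →
    (∀ i, y i ∈ F') → Gd κ N y with hG
  have hGh : ∀ F F' : Finset ℕ, F' ⊆ F → G F → G F' := fun F F' hF hGF y hy hy' =>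
    hGF y hy fun i => hF (hy' i)
  have hHit : HitM (18 / 5) Kf M δ' V G := by
    intro T' h1 h2
    refine le_trans ?_ (hN T' (mem_Icc.2 ⟨h1, h2⟩) D hD1 hD2 V hV hVc
      (fun p hp hpT => hadm p hp (hpT.trans (hzle T' h2))))
    rw [Nat.cast_le]
    apply card_le_card
    intro H hH'
    rw [mem_filter] at hH' ⊢
    refine ⟨hH'.1, hH'.2.1, ?_⟩
    rintro ⟨S, σ, hS, hF⟩
    apply hH'.2.2
    refine ⟨S, σ, ?_, ?_⟩
    · have h3 := (hf T' h1).1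
      have h4 : ((Mf T' + 1 : ℕ) : ℝ) ≤ (S.card : ℝ) := by exact_mod_cast hS
      calc (T' : ℝ) ≤ (18 / 5) * ((Mf T' + 1 : ℕ) : ℝ) := h3
        _ ≤ 18 / 5 * (S.card : ℝ) := mul_le_mul_of_nonneg_left h4 (by norm_num)
    · intro y hy hy'
      apply Gd_mono (hκle T' h2)
      apply hF y hy
      intro i
      obtain ⟨g, hg, hgy⟩ := mem_image.1 (hy' i)
      exact ⟨g, hg, hgy.symm⟩
  have h := hG0 V G hn0V hGh hHit
  have e : (1 / (18 / 5) : ℝ) = 5 / 18 := by norm_num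
  rw [e] at h
  refine h.trans ?_
  rw [Nat.cast_le]
  apply card_le_card
  intro y hy
  rw [mem_filter] at hy ⊢
  exact ⟨hy.1, hy.2.1, hy.2.2 y hy.2.1 fun i => mem_image_of_mem y (mem_univ i)⟩

end Pool.Agent.K9h13.FE
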